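import Mathlib

set_option autoImplicit false

namespace Pool.Agent.Results.MP_a52033_al.Existence

universe u

/-- `(xy)y = x(yy)` for all `x`, `y`. -/
def RightAlternative (A : Type u) [NonUnitalNonAssocRing A] : Prop :=
  ∀ x y : A, (x * y) * y = x * (y * y)

/-- `(xx)y = x(xy)` for all `x`, `y`. -/
def LeftAlternative (A : Type u) [NonUnitalNonAssocRing A] : Prop :=
  ∀ x y : A, (x * x) * y = x * (x * y)

/-- Alternative: left and right alternative. -/
def Alternative (A : Type u) [NonUnitalNonAssocRing A] : Prop :=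
  LeftAlternative A ∧ RightAlternative A

/-- The commutator `[x,y] = xy - yx`. -/
def comm {A : Type u} [NonUnitalNonAssocRing A] (x y : A) : A := x * y - y * x

/-- The commutator algebra is a Malcev algebra (`[x,x] = 0` and the Malcev identity). -/
def MalcevAdmissible (A : Type u) [NonUnitalNonAssocRing A] : Prop :=
  (∀ x : A, comm x x = 0) ∧
  ∀ x y z : A, comm (comm x y) (comm x z) =
    comm (comm (comm x y) z) x + comm (comm (comm y z) x) x + comm (comm (comm z x) x) y

/-- Simple algebra: nonzero product, and no two-sided ideals besides `0` and `A`. -/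
def IsSimpleAlg (F A : Type u) [Field F] [NonUnitalNonAssocRing A] [Module F A] : Prop :=
  (∃ x y : A, x * y ≠ 0) ∧
  ∀ I : Submodule F A, (∀ x ∈ I, ∀ a : A, a * x ∈ I ∧ x * a ∈ I) → I = ⊥ ∨ I = ⊤

/-- The underlying space of the example: triples of scalars. -/
def T (F : Type u) : Type u := F × F × F

section construction

variable {F : Type u} [Field F]

instance : AddCommGroup (T F) := inferInstanceAs (AddCommGroup (F × F × F))
instance : Module F (T F) := inferInstanceAs (Module F (F × F × F))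

/-- `(a1,a2,a3)(b1,b2,b3) = (a1 b2, a1 b3 + a2 b2 + a3 b1, a1 b1)`. -/
def mul (x y : T F) : T F :=
  (x.1 * y.2.1, x.1 * y.2.2 + x.2.1 * y.2.1 + x.2.2 * y.1, x.1 * y.1)

omit [Field F] in
theorem ext' {x y : T F} (h1 : x.1 = y.1) (h2 : x.2.1 = y.2.1) (h3 : x.2.2 = y.2.2) : x = y :=
  Prod.ext h1 (Prod.ext h2 h3)

theorem add_1 (x y : T F) : (x + y).1 = x.1 + y.1 := rfl
theorem add_2 (x y : T F) : (x + y).2.1 = x.2.1 + y.2.1 := rfl
theorem add_3 (x y : T F) : (x + y).2.2 = x.2.2 + y.2.2 := rfl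
theorem sub_1 (x y : T F) : (x - y).1 = x.1 - y.1 := rfl
theorem sub_2 (x y : T F) : (x - y).2.1 = x.2.1 - y.2.1 := rfl
theorem sub_3 (x y : T F) : (x - y).2.2 = x.2.2 - y.2.2 := rfl
theorem smul_1 (c : F) (x : T F) : (c • x).1 = c * x.1 := rfl
theorem smul_2 (c : F) (x : T F) : (c • x).2.1 = c * x.2.1 := rfl
theorem smul_3 (c : F) (x : T F) : (c • x).2.2 = c * x.2.2 := rfl
theorem zero_1 : (0 : T F).1 = 0 := rfl
theorem zero_2 : (0 : T F).2.1 = 0 := rfl
theorem zero_3 : (0 : T F).2.2 = 0 := rfl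

instance : NonUnitalNonAssocRing (T F) :=
  { (inferInstance : AddCommGroup (T F)) with
    mul := mul
    left_distrib := fun x y z => by
      refine ext' ?_ ?_ ?_
      · change x.1 * (y.2.1 + z.2.1) = x.1 * y.2.1 + x.1 * z.2.1; ring
      · change x.1 * (y.2.2 + z.2.2) + x.2.1 * (y.2.1 + z.2.1) + x.2.2 * (y.1 + z.1) =
          (x.1 * y.2.2 + x.2.1 * y.2.1 + x.2.2 * y.1) + (x.1 * z.2.2 + x.2.1 * z.2.1 + x.2.2 * z.1)
        ring
      · change x.1 * (y.1 + z.1) = x.1 * y.1 + x.1 * z.1; ring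
    right_distrib := fun x y z => by
      refine ext' ?_ ?_ ?_
      · change (x.1 + y.1) * z.2.1 = x.1 * z.2.1 + y.1 * z.2.1; ring
      · change (x.1 + y.1) * z.2.2 + (x.2.1 + y.2.1) * z.2.1 + (x.2.2 + y.2.2) * z.1 =
          (x.1 * z.2.2 + x.2.1 * z.2.1 + x.2.2 * z.1) + (y.1 * z.2.2 + y.2.1 * z.2.1 + y.2.2 * z.1)
        ring
      · change (x.1 + y.1) * z.1 = x.1 * z.1 + y.1 * z.1; ring
    zero_mul := fun x => by
      refine ext' ?_ ?_ ?_
      · change (0 : F) * x.2.1 = 0; ring
      · change (0 : F) * x.2.2 + 0 * x.2.1 + 0 * x.1 = 0; ring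
      · change (0 : F) * x.1 = 0; ring
    mul_zero := fun x => by
      refine ext' ?_ ?_ ?_
      · change x.1 * (0 : F) = 0; ring
      · change x.1 * (0 : F) + x.2.1 * 0 + x.2.2 * 0 = 0; ring
      · change x.1 * (0 : F) = 0; ring }

theorem mul_1 (x y : T F) : (x * y).1 = x.1 * y.2.1 := rfl
theorem mul_2 (x y : T F) :
    (x * y).2.1 = x.1 * y.2.2 + x.2.1 * y.2.1 + x.2.2 * y.1 := rfl
theorem mul_3 (x y : T F) : (x * y).2.2 = x.1 * y.1 := rfl

instance : IsScalarTower F (T F) (T F) := ⟨fun c x y => by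
  refine ext' ?_ ?_ ?_
  · simp only [smul_eq_mul, mul_1, smul_1]; ring
  · simp only [smul_eq_mul, mul_2, smul_1, smul_2, smul_3]; ring
  · simp only [smul_eq_mul, mul_3, smul_1, smul_3]; ring⟩

instance : SMulCommClass F (T F) (T F) := ⟨fun c x y => by
  refine ext' ?_ ?_ ?_
  · simp only [smul_eq_mul, mul_1, smul_1, smul_2]; ring
  · simp only [smul_eq_mul, mul_2, smul_1, smul_2, smul_3]; ring
  · simp only [smul_eq_mul, mul_3, smul_1, smul_3]; ring⟩

/-- The element with coordinates `a`, `b`, `c`. -/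
def mk (a b c : F) : T F := (a, b, c)

theorem mk_1 (a b c : F) : (mk a b c).1 = a := rfl
theorem mk_2 (a b c : F) : (mk a b c).2.1 = b := rfl
theorem mk_3 (a b c : F) : (mk a b c).2.2 = c := rfl

theorem right_alt (h2 : (2 : F) = 0) : RightAlternative (T F) := by
  intro x y
  refine ext' ?_ ?_ ?_
  · simp only [mul_1, mul_2]; linear_combination (-(x.1 * y.1 * y.2.2)) * h2
  · simp only [mul_1, mul_2, mul_3]
    linear_combination (x.1 * y.2.1 * y.2.2 - x.2.1 * y.1 * y.2.2) * h2
  · simp only [mul_1, mul_3]; ring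

theorem comm_eq (x y : T F) :
    comm x y = mk (x.1 * y.2.1 - x.2.1 * y.1) 0 0 := by
  refine ext' ?_ ?_ ?_
  · simp only [comm, sub_1, mul_1, mk_1]; ring
  · simp only [comm, sub_2, mul_2, mk_2]; ring
  · simp only [comm, sub_3, mul_3, mk_3]; ring

theorem malcev : MalcevAdmissible (T F) := by
  refine ⟨fun x => sub_self _, fun x y z => ?_⟩
  simp only [comm_eq]
  refine ext' ?_ ?_ ?_
  · simp only [add_1, mk_1, mk_2]; ring
  · simp only [add_2, mk_2]; ring
  · simp only [add_3, mk_3]; ring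

theorem not_alt : ¬ Alternative (T F) := by
  intro h
  -- `(e1 e1) e2 = 0` but `e1 (e1 e2) = e3`
  have := h.1 (mk 1 0 0) (mk 0 1 0)
  have h3 := congrArg (fun t : T F => t.2.2) this
  simp [mul_3, mul_1, mk_1, mk_2, mk_3] at h3

theorem simple : IsSimpleAlg F (T F) := by
  refine ⟨⟨mk 0 1 0, mk 0 1 0, ?_⟩, ?_⟩
  · intro h
    have := congrArg (fun t : T F => t.2.1) h
    simp [mul_2, mk_1, mk_2, mk_3, zero_2] at this
  · intro I hI
    -- an ideal containing `e2` is everything
    have key : mk (0 : F) 1 0 ∈ I → I = ⊤ := by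
      intro h2
      have h1 : mk (1 : F) 0 0 ∈ I := by
        have := (hI _ h2 (mk 1 0 0)).1
        have e : (mk (1 : F) 0 0) * (mk 0 1 0) = mk 1 0 0 := by
          refine ext' ?_ ?_ ?_ <;> simp [mul_1, mul_2, mul_3, mk_1, mk_2, mk_3]
        rwa [e] at this
      have h3 : mk (0 : F) 0 1 ∈ I := by
        have := (hI _ h1 (mk 1 0 0)).1
        have e : (mk (1 : F) 0 0) * (mk 1 0 0) = mk 0 0 1 := by
          refine ext' ?_ ?_ ?_ <;> simp [mul_1, mul_2, mul_3, mk_1, mk_2, mk_3]
        rwa [e] at this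
      rw [eq_top_iff]
      intro v _
      have e : v = v.1 • mk (1 : F) 0 0 + v.2.1 • mk (0 : F) 1 0 + v.2.2 • mk (0 : F) 0 1 := by
        refine ext' ?_ ?_ ?_ <;>
          simp [add_1, add_2, add_3, smul_1, smul_2, smul_3, mk_1, mk_2, mk_3]
      rw [e]
      exact I.add_mem (I.add_mem (I.smul_mem _ h1) (I.smul_mem _ h2)) (I.smul_mem _ h3)
    -- an ideal with an element of nonzero first coordinate is everything
    have key1 : ∀ v ∈ I, v.1 ≠ 0 → I = ⊤ := by
      intro v hv hv1
      apply key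
      have := I.smul_mem (v.1)⁻¹ (hI v hv (mk 0 0 1)).2
      have e : (v.1)⁻¹ • (v * mk (0 : F) 0 1) = mk 0 1 0 := by
        refine ext' ?_ ?_ ?_ <;> simp [smul_1, smul_2, smul_3, mul_1, mul_2, mul_3, mk_1, mk_2, mk_3, hv1]
      rwa [e] at this
    by_cases hb : I = ⊥
    · exact Or.inl hb
    · right
      obtain ⟨v, hv, hv0⟩ := I.ne_bot_iff.mp hb
      by_cases h1 : v.1 = 0
      · by_cases h2 : v.2.1 = 0
        · have h3 : v.2.2 ≠ 0 := by
            intro h3
            exact hv0 (ext' h1 h2 h3)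
          apply key
          have := I.smul_mem (v.2.2)⁻¹ (hI v hv (mk 1 0 0)).1
          have e : (v.2.2)⁻¹ • (mk (1 : F) 0 0 * v) = mk 0 1 0 := by
            refine ext' ?_ ?_ ?_ <;>
              simp [smul_1, smul_2, smul_3, mul_1, mul_2, mul_3, mk_1, mk_2, mk_3, h1, h2, h3]
          rwa [e] at this
        · refine key1 _ (hI v hv (mk 1 0 0)).1 ?_
          simpa [mul_1, mk_1] using h2
      · exact key1 v hv h1

theorem finrank_eq : Module.finrank F (T F) = 3 := by
  have : Module.finrank F (F × F × F) = 3 := by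
    rw [Module.finrank_prod, Module.finrank_prod, Module.finrank_self]
  exact this

end construction

/-- There is a field and a simple algebra over it that is right alternative, not alternative,
and Malcev-admissible. -/
theorem result :
    ∃ (F : Type) (_ : Field F) (A : Type) (_ : NonUnitalNonAssocRing A) (_ : Module F A)
      (_ : IsScalarTower F A A) (_ : SMulCommClass F A A),
      IsSimpleAlg F A ∧ RightAlternative A ∧ ¬ Alternative A ∧ MalcevAdmissible A :=
  have h2 : (2 : ZMod 2) = 0 := by decide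
  ⟨ZMod 2, inferInstance, T (ZMod 2), inferInstance, inferInstance, inferInstance, inferInstance,
    simple, right_alt h2, not_alt, malcev⟩

end Pool.Agent.Results.MP_a52033_al.Existence
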